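import Mathlib

/-!
# A vertex contained in no locally minimal defensive alliance

Every graph below is finite and simple.  We give a graph on eight vertices with minimum
degree two and a vertex of it which lies in no locally minimal defensive alliance.
-/

namespace Pool.Agent.Results.MP_b7e006_co.Counterexample

/-- `D` is a defensive alliance of `G`: it is nonempty and every `v ∈ D` satisfies
`|N[v] ∩ D| ≥ |N(v) \ D|`. -/
def IsDefensiveAlliance {V : Type} [Fintype V] [DecidableEq V] (G : SimpleGraph V)
    [DecidableRel G.Adj] (D : Finset V) : Prop :=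
  D.Nonempty ∧
    ∀ v ∈ D, (G.neighborFinset v \ D).card ≤ ((insert v (G.neighborFinset v)) ∩ D).card

/-- `D` is a locally minimal defensive alliance of `G`: it is a defensive alliance, and for
every `v ∈ D` the set `D \ {v}` is not a defensive alliance. -/
def IsLocallyMinimal {V : Type} [Fintype V] [DecidableEq V] (G : SimpleGraph V)
    [DecidableRel G.Adj] (D : Finset V) : Prop :=
  IsDefensiveAlliance G D ∧ ∀ v ∈ D, ¬ IsDefensiveAlliance G (D \ {v})

/-- The upper triangle of the adjacency matrix of the graph. -/
def edgeTable : List (ℕ × ℕ) :=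
  [(0, 2), (0, 7), (1, 2), (1, 3), (1, 4), (1, 5), (1, 6), (1, 7), (2, 3), (2, 4), (2, 5),
    (2, 6), (2, 7), (3, 4), (3, 5), (3, 6), (3, 7), (4, 5), (5, 6), (5, 7)]

/-- The graph on eight vertices with edge list `edgeTable`. -/
def theGraph : SimpleGraph (Fin 8) where
  Adj a b := (a.val, b.val) ∈ edgeTable ∨ (b.val, a.val) ∈ edgeTable
  symm := ⟨fun _ _ h => Or.symm h⟩
  loopless := ⟨by intro a; revert a; decide⟩

instance : DecidableRel theGraph.Adj := fun a b =>
  inferInstanceAs (Decidable ((a.val, b.val) ∈ edgeTable ∨ (b.val, a.val) ∈ edgeTable))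

instance {V : Type} [Fintype V] [DecidableEq V] (G : SimpleGraph V)
    [DecidableRel G.Adj] (D : Finset V) : Decidable (IsDefensiveAlliance G D) := by
  unfold IsDefensiveAlliance; infer_instance

instance {V : Type} [Fintype V] [DecidableEq V] (G : SimpleGraph V)
    [DecidableRel G.Adj] (D : Finset V) : Decidable (IsLocallyMinimal G D) := by
  unfold IsLocallyMinimal; infer_instance

/-- There are a finite simple graph `G` of minimum degree at least two and a vertex `v` of `G`
such that no locally minimal defensive alliance of `G` contains `v`. -/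
theorem result :
    ∃ (V : Type) (_ : Fintype V) (_ : DecidableEq V) (G : SimpleGraph V)
      (_ : DecidableRel G.Adj) (v : V),
      2 ≤ G.minDegree ∧ ∀ D : Finset V, IsLocallyMinimal G D → v ∉ D := by
  refine ⟨Fin 8, inferInstance, inferInstance, theGraph, inferInstance, 0, ?_, ?_⟩
  · apply SimpleGraph.le_minDegree_of_forall_le_degree
    decide +kernel
  · decide +kernel

end Pool.Agent.Results.MP_b7e006_co.Counterexample
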